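import Pool.Agent.helper64.PB.SpecL

set_option autoImplicit false

namespace Pool.Agent.PB

theorem POL : POL_stmt := by
  intro C c
  refine ⟨(C + 2 * c + 4) + C * (3 ^ c + 1 + c + 2), ?_⟩
  intro n
  rcases Nat.lt_or_ge n 2 with hn | hn
  · have h1 : (n + 2) ^ c ≤ 3 ^ c := Nat.pow_le_pow_left (by omega) c
    have h2 : C * ((n + 2) ^ c + n + c + 2) ≤ C * (3 ^ c + 1 + c + 2) :=
      Nat.mul_le_mul_left C (by omega)
    omega
  · have e1 : n + 2 ≤ n ^ 2 := by nlinarith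
    have e2 : (n + 2) ^ c ≤ n ^ (2 * c) := by
      calc (n + 2) ^ c ≤ (n ^ 2) ^ c := Nat.pow_le_pow_left e1 c
        _ = n ^ (2 * c) := by rw [← pow_mul]
    have e3 : c ≤ n ^ c := le_trans (Nat.lt_two_pow_self).le (Nat.pow_le_pow_left hn c)
    have e4 : C ≤ n ^ C := le_trans (Nat.lt_two_pow_self).le (Nat.pow_le_pow_left hn C)
    have hn1 : 1 ≤ n := by omega
    have a1 : n ^ (2 * c) ≤ n ^ (2 * c + 2) := Nat.pow_le_pow_right hn1 (by omega)
    have a2 : n ^ 2 ≤ n ^ (2 * c + 2) := Nat.pow_le_pow_right hn1 (by omega)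
    have a3 : n ^ c ≤ n ^ (2 * c + 2) := Nat.pow_le_pow_right hn1 (by omega)
    have a4 : (n + 2) ^ c + n + c + 2 ≤ 4 * n ^ (2 * c + 2) := by omega
    have a5 : 4 * n ^ (2 * c + 2) ≤ n ^ (2 * c + 4) := by
      have : n ^ (2 * c + 4) = n ^ 2 * n ^ (2 * c + 2) := by rw [← pow_add]; congr 1; omega
      rw [this]
      exact Nat.mul_le_mul_right _ (by nlinarith)
    have a6 : C * ((n + 2) ^ c + n + c + 2) ≤ n ^ C * n ^ (2 * c + 4) :=
      Nat.mul_le_mul e4 (le_trans a4 a5)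
    have a7 : n ^ C * n ^ (2 * c + 4) = n ^ (C + 2 * c + 4) := by
      rw [← pow_add, show C + (2 * c + 4) = C + 2 * c + 4 by omega]
    have a8 : n ^ (C + 2 * c + 4) ≤ n ^ ((C + 2 * c + 4) + C * (3 ^ c + 1 + c + 2)) :=
      Nat.pow_le_pow_right hn1 (Nat.le_add_right _ _)
    omega

end Pool.Agent.PB
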