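import Pool.Agent.helper64.PB.SpecA

set_option autoImplicit false

namespace Pool.Agent.PB

theorem TRB_mono {G : Set Gate} {n : ℕ} {f : BF n} {s t : ℕ} (h : Size G f s) (hst : s ≤ t) : Size G f t := by
  obtain ⟨l, hl, hlen, hf⟩ := h
  exact ⟨l, hl, le_trans hlen hst, hf⟩

theorem TRB_prog (hSUB : SUB_stmt) (G G' : Set Gate) (c : ℕ) (hc : ∀ g ∈ G', Size G g.2 c) (n : ℕ)
    (L : List (BF n)) (hL : Prog G' n L) :
    ∃ l, Prog G n l ∧ l.length ≤ c * L.length ∧ ∀ u ∈ L, Av l u := by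
  induction hL with
  | nil => exact ⟨[], Prog.nil, by simp, by simp⟩
  | step L0 g a _ hg ha ih =>
    obtain ⟨l0, hl0, hlen0, hav0⟩ := ih
    have hφ : ∀ i, Av l0 (a i) := by
      intro i
      rcases ha i with h | h
      · exact hav0 _ h
      · exact Or.inr h
    obtain ⟨l', hl', hlen', hav'⟩ := hSUB G g.1 n g.2 c l0 a (hc g hg) hl0 hφ
    refine ⟨l' ++ l0, hl', ?_, ?_⟩
    · rw [List.length_append, List.length_cons, mul_add, mul_one]
      omega
    · intro u hu
      rcases List.mem_cons.1 hu with h | h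
      · rw [h]; exact hav'
      · rcases hav0 u h with h2 | h2
        · exact Or.inl (List.mem_append.2 (Or.inr h2))
        · exact Or.inr h2

theorem TRB (hSUB : SUB_stmt) : TRB_stmt := by
  intro G G' hfin hcl
  have hbound : ∃ c : ℕ, ∀ g ∈ G', Size G g.2 c := by
    have hch : ∀ g : Gate, ∃ s : ℕ, g ∈ G' → Size G g.2 s := by
      intro g
      by_cases hg : g ∈ G'
      · obtain ⟨s, hs⟩ := hcl g hg
        exact ⟨s, fun _ => hs⟩
      · exact ⟨0, fun h => absurd h hg⟩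
    choose t ht using hch
    refine ⟨∑ g ∈ hfin.toFinset, t g, ?_⟩
    intro g hg
    refine TRB_mono (ht g hg) ?_
    exact Finset.single_le_sum (f := t) (fun i _ => Nat.zero_le _) (hfin.mem_toFinset.2 hg)
  obtain ⟨c, hc⟩ := hbound
  refine ⟨c, ?_⟩
  intro n f s hs
  obtain ⟨L, hL, hlen, hf⟩ := hs
  obtain ⟨l, hl, hlen', hav⟩ := TRB_prog hSUB G G' c hc n L hL
  refine ⟨l, hl, le_trans hlen' (Nat.mul_le_mul_left c hlen), ?_⟩
  rcases hf with h | h
  · exact hav f h
  · exact Or.inr h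

end Pool.Agent.PB
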